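import Pool.Agent.Lib.MP_e825aa_al.AdelicQuotient

/-!
# Infinitely many minimal closed normal subgroups over an irreducible coset space

The group is `G = (SL(2, ℝ) × SL(2, A_f)) / center`, where `A_f` is the ring of finite adeles of
`ℚ`, and `H` is the (discrete) image of `SL(2, ℚ)`.  The minimal closed normal subgroups found
below are the images of the factors `SL(2, ℚ_p)`, one for every prime `p`.
-/

namespace Pool.Agent.Results.MP_e825aa_al.AdelicPSL2

open Pool.Agent.Lib.MP_e825aa_al

/-- `G/H` is an irreducible coset space: `H` is closed, `H ≠ G`, and the only closed subgroups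
`K` of `G` with `H ≤ K` are `H` and `G`. -/
def IsIrreducibleCosetSpace {G : Type} [Group G] [TopologicalSpace G] (H : Subgroup G) : Prop :=
  IsClosed (H : Set G) ∧ H ≠ ⊤ ∧
    ∀ K : Subgroup G, IsClosed (K : Set G) → H ≤ K → K = H ∨ K = ⊤

/-- `G/H` is faithful: the intersection of all conjugates `g H g⁻¹` is trivial. -/
def IsFaithfulCosetSpace {G : Type} [Group G] (H : Subgroup G) : Prop :=
  (⋂ g : G, (fun x => g * x * g⁻¹) '' (H : Set G)) = {1}

/-- The set of closed normal subgroups `M ≠ {1}` of `G` such that no closed normal subgroup of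
`G` lies strictly between `{1}` and `M`. -/
def minimalClosedNormal (G : Type) [Group G] [TopologicalSpace G] : Set (Subgroup G) :=
  {M | IsClosed (M : Set G) ∧ M.Normal ∧ M ≠ ⊥ ∧
    ∀ N : Subgroup G, IsClosed (N : Set G) → N.Normal → N ≤ M → N = ⊥ ∨ N = M}

/-- There are a locally compact Polish group `G` and a closed subgroup `H` such that `G/H` is a
faithful irreducible coset space and `G` has infinitely many minimal closed normal subgroups. -/
theorem result :
    ∃ (G : Type) (_ : Group G) (_ : TopologicalSpace G),
      IsTopologicalGroup G ∧ LocallyCompactSpace G ∧ PolishSpace G ∧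
        ∃ H : Subgroup G, IsIrreducibleCosetSpace H ∧ IsFaithfulCosetSpace H ∧
          (minimalClosedNormal G).Infinite := by
  refine ⟨PG, inferInstance, inferInstance, inferInstance, inferInstance, polishPG, HH,
    ⟨isClosed_HH, HH_ne_top, HH_maximal⟩, ?_, ?_⟩
  · unfold IsFaithfulCosetSpace
    ext x
    rw [Set.mem_iInter, Set.mem_singleton_iff]
    constructor
    · intro hx
      apply faithful_HH
      intro g
      obtain ⟨y, hy, hyx⟩ := hx g⁻¹
      have : g * x * g⁻¹ = y := by
        rw [← hyx]
        group
      rw [this]
      exact hy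
    · rintro rfl g
      exact ⟨1, HH.one_mem, by group⟩
  · refine Set.infinite_of_injective_forall_mem MM_injective (fun p => ?_)
    refine ⟨isClosed_MM p, normal_MM p, MM_ne_bot p, fun N _ hN hle => ?_⟩
    by_cases hne : N = ⊥
    · exact Or.inl hne
    · exact Or.inr (MM_minimal p N hN hle hne)

end Pool.Agent.Results.MP_e825aa_al.AdelicPSL2
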